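import Mathlib
import Pool.Agent.H31.Spec3

set_option autoImplicit false
open Matrix Finset Polynomial

namespace Pool.Agent.Results.MP_7d4bc7_co.Counter

variable {n : ℕ}

def IsCode (H : SimpleGraph (Fin n)) (𝒢 : Finset (SimpleGraph (Fin n))) : Prop :=
  (∀ F ∈ 𝒢, F ≤ H) ∧ ∀ F ∈ 𝒢, ∀ F' ∈ 𝒢, F ≠ F' → (symmDiff F F').Connected

noncomputable def m (H : SimpleGraph (Fin n)) : ℕ := sSup {k | ∃ 𝒢, IsCode H 𝒢 ∧ 𝒢.card = k}

open Classical in
/-- The nontrivial eigenvalues, with multiplicity: one copy of d is removed, and one copy of -d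
when the graph is bipartite. -/
noncomputable def nontriv (H : SimpleGraph (Fin n)) [DecidableRel H.Adj] (d : ℕ) : Multiset ℝ :=
  if H.IsBipartite then ((H.adjMatrix ℝ).charpoly.roots.erase d).erase (-d)
  else (H.adjMatrix ℝ).charpoly.roots.erase d

def Ramanujan (H : SimpleGraph (Fin n)) [DecidableRel H.Adj] (d : ℕ) : Prop :=
  H.IsRegularOfDegree d ∧ ∀ x ∈ nontriv H d, |x| ≤ 2 * √(d - 1)

def G : SimpleGraph (Fin 10) where
  Adj i j := i ≠ j ∧ if i.val / 5 = j.val / 5 then 1 < i.val % 5 ∨ 1 < j.val % 5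
    else i.val % 5 = j.val % 5 ∧ i.val % 5 ≤ 1
  symm := ⟨by decide⟩
  loopless := ⟨by decide⟩

instance : DecidableRel G.Adj := fun i j => by unfold G; infer_instance

theorem result : ¬ ∀ (d n : ℕ) (H : SimpleGraph (Fin n)) [DecidableRel H.Adj], 4 ≤ d →
    H.Connected → Ramanujan H d → m H = 2 ^ d := by
  intro h
  have hf : aeval (G.adjMatrix ℤ) ((X ^ 2 - 1) * (X ^ 2 - X - 8) : ℤ[X]) = of fun _ _ => 6 := by
    simp only [map_mul, map_sub, map_pow, aeval_X, map_one, map_ofNat, sq]
    decide +kernel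
  have h4 : (G.adjMatrix ℤ - 4) * of (fun _ _ => 6 : Fin 10 → Fin 10 → ℤ) = 0 := by decide +kernel
  have r := H31.Spec.erase_root (H31.Spec.herm G)
    (((X ^ 2 - 1) * (X ^ 2 - X - 8) : ℤ[X]).map (Int.castRingHom ℝ)) 4 (by
      rw [map_mul, H31.Spec.adj_cast, H31.Spec.aeval_cast, hf, ← map_zero (Int.castRingHom ℝ).mapMatrix,
        ← h4, map_mul, map_sub, map_sub, aeval_X, aeval_C, map_ofNat, map_ofNat])
    (by rw [H31.Spec.adj_cast, H31.Spec.aeval_cast, hf]; simp [Matrix.trace]; norm_num)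
    (by simp; norm_num)
  have := h 4 10 G le_rfl (by decide +kernel) ⟨by unfold SimpleGraph.IsRegularOfDegree; decide,
    fun x hx => ?_⟩
  · have e : m G ≤ 4 := by
      refine csSup_le' ?_
      rintro _ ⟨𝒢, ⟨a, b⟩, rfl⟩
      classical
      refine (card_le_card_of_injOn (t := univ) (fun F => (decide (F.Adj 0 5), decide (F.Adj 1 6)))
        (by simp) fun F hF F' hF' e => ?_).trans (by simp)
      by_contra ne
      simp only [Prod.mk.injEq, decide_eq_decide] at e
      have c : ∀ u v, (symmDiff F F').Adj u v → u.val / 5 = v.val / 5 := by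
        intro u v huv
        have g : G.Adj u v := (symmDiff_le_sup.trans (sup_le (a F hF) (a F' hF'))) huv
        by_contra c
        have : (u = 0 ∧ v = 5 ∨ u = 5 ∧ v = 0) ∨ (u = 1 ∧ v = 6 ∨ u = 6 ∧ v = 1) := by
          clear huv; revert u v; decide
        have s1 := F.adj_comm 0 5
        have s2 := F.adj_comm 1 6
        have s3 := F'.adj_comm 0 5
        have s4 := F'.adj_comm 1 6
        simp only [symmDiff, SimpleGraph.sup_adj, SimpleGraph.sdiff_adj] at huv
        rcases this with (⟨rfl, rfl⟩ | ⟨rfl, rfl⟩) | (⟨rfl, rfl⟩ | ⟨rfl, rfl⟩) <;> tauto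
      have w : ∀ u v (p : (symmDiff F F').Walk u v), u.val / 5 = v.val / 5 := by
        intro u v p
        induction p with
        | nil => rfl
        | cons h _ ih => exact (c _ _ h).trans ih
      obtain ⟨p⟩ := (b F hF F' hF' ne).preconnected 0 5
      exact absurd (w _ _ p) (by decide)
    omega
  · have hx2 : x ∈ (G.adjMatrix ℝ).charpoly.roots.erase 4 := by
      unfold nontriv at hx
      split_ifs at hx
      exacts [by simpa using Multiset.mem_of_mem_erase hx, by simpa using hx]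
    have e := r x hx2
    have s : (1.7 : ℝ) ≤ √(((4 : ℕ) : ℝ) - 1) := Real.le_sqrt_of_sq_le (by norm_num)
    simp at e
    refine le_trans (abs_le.mpr ?_) (show (3.4 : ℝ) ≤ _ by linarith)
    rcases e with e | e <;> constructor <;> nlinarith

end Pool.Agent.Results.MP_7d4bc7_co.Counter
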